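import Pool.Agent.H14.Cospec
import Pool.Agent.H14.MulticoneDefs

set_option autoImplicit false

namespace Pool.Agent.Results.MP_cd2ba9_co.Counter

open Pool.Agent.H14 Pool.Agent.H14.Multicone

def edges : List (Fin 8 × Fin 8) := [(0,1),(0,2),(1,2),(0,3),(1,3),(0,4),(0,5),(1,6),(1,7)]

def H : SimpleGraph (Fin 8) where
  Adj a b := (a, b) ∈ edges ∨ (b, a) ∈ edges
  symm := ⟨fun _ _ h => h.symm⟩
  loopless := ⟨by decide⟩

instance : DecidableRel H.Adj := fun a b => by unfold H; infer_instance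

instance : DecidableRel (multicone 2 1 6).Adj := fun a b => by
  unfold multicone
  cases a <;> cases b <;> dsimp only <;> infer_instance

def ix : Fin 2 ⊕ Fin 1 × Fin 6 → Fin 8
  | Sum.inl a => ⟨a.val, by omega⟩
  | Sum.inr x => ⟨x.2.val + 2, by omega⟩

def P0 : Fin 8 → Fin 8 → ℤ :=
  ![![0, 0, 1, 0, 0, -1, 0, -1], ![0, 0, -2, 1, 1, 0, 1, 0], ![0, 0, -6, -3, 9, 0, -3, -3], ![-9, 6, 0, -3, 3, -3, 0, 0], ![-3, -3, 3, 3, -6, 9, -6, -6], ![-3, -3, -3, 0, 3, -6, 6, 6], ![6, -9, 0, -3, 3, -3, 0, 0], ![0, 0, 0, 0, -15, 0, 0, 0]]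

def Q0 : Fin 8 → Fin 8 → ℤ :=
  ![![0, 0, 0, -1, -1, -1, 0, 0], ![0, 0, 0, 0, -1, -1, -1, 0], ![0, 0, -2, 1, 0, -1, 1, -1], ![15, -15, 5, -7, 1, 6, -7, 0], ![0, 0, 0, 0, 0, 0, 0, -1], ![-15, 15, -5, 5, 0, -5, 5, -1], ![-15, 30, -9, 9, -1, -8, 9, -1], ![0, -15, 3, -4, 0, 4, -4, 0]]

def P : Matrix (Fin 2 ⊕ Fin 1 × Fin 6) (Fin 8) ℤ := fun a b => P0 (ix a) b
def Q : Matrix (Fin 8) (Fin 2 ⊕ Fin 1 × Fin 6) ℤ := fun a b => Q0 a (ix b)

theorem h1 : ((multicone 2 1 6)ᶜ).adjMatrix ℤ * P = P * H.adjMatrix ℤ := by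
  decide +kernel

theorem h2 : P * Q = Matrix.diagonal (fun _ => (15 : ℤ)) := by decide +kernel
theorem h3 : Q * P = Matrix.diagonal (fun _ => (15 : ℤ)) := by decide +kernel

theorem result :
    ¬ ∀ w m n : ℕ, 1 ≤ w → 1 ≤ m → 3 ≤ n →
      ∀ (N : ℕ) (H : SimpleGraph (Fin N)) [DecidableRel H.Adj]
        [DecidableRel ((multicone w m n)ᶜ).Adj],
        (H.adjMatrix ℝ).charpoly = (((multicone w m n)ᶜ).adjMatrix ℝ).charpoly →
        Nonempty (H ≃g (multicone w m n)ᶜ) := by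
  intro h
  have key : (((multicone 2 1 6)ᶜ).adjMatrix ℝ).charpoly = (H.adjMatrix ℝ).charpoly :=
    Cospec.charpoly_eq _ _ (((multicone 2 1 6)ᶜ).adjMatrix ℤ) (H.adjMatrix ℤ)
      (by ext i j; simp [SimpleGraph.adjMatrix_apply])
      (by ext i j; simp [SimpleGraph.adjMatrix_apply])
      P Q 15 (by norm_num) h1 h2 h3 (by simp)
  obtain ⟨φ⟩ := h 2 1 6 (by norm_num) (by norm_num) (by norm_num) 8 H key.symm
  have hall : ∀ a : Fin 8, ∃ b, H.Adj a b := by decide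
  obtain ⟨b, hb⟩ := hall (φ.symm (Sum.inl 0))
  have := φ.map_rel_iff.mpr hb
  rw [RelIso.apply_symm_apply] at this
  have hn : ∀ y, ¬ ((multicone 2 1 6)ᶜ).Adj (Sum.inl 0) y := by decide
  exact hn _ this

end Pool.Agent.Results.MP_cd2ba9_co.Counter
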